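import Pool.Agent.Q145.LZ.Stm

/-!
# Job TRZ of project LZ (helper145), by helper68 (after Pool/Agent/Q145/LX/Low.lean)
-/

set_option autoImplicit false
set_option linter.all false

namespace Pool.Agent.Q68.LZ

open Finset Filter
open Pool.Agent.Q145.SZ Pool.Agent.Q145.LQ Pool.Agent.Q145.LE Pool.Agent.Q145.LT Pool.Agent.Q145.LX
open Pool.Agent.Q145.LZ

/-- the primes above `z` which make `s` not good -/
def BadZ {K : ℕ} (z A₀ B₀ : ℕ) (c₀ s : Fin K → ℕ) : Prop :=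
  ∃ i, ∃ p : ℕ, p.Prime ∧ z < p ∧ p ∣ A₀ ∧ p ∣ B₀ ^ 2 + c₀ i + s i

lemma eval_qz {K : ℕ} (A₀ B₀ : ℕ) (c₀ : Fin K → ℕ) (i : Fin K) (n : ℤ) :
    (qz A₀ B₀ c₀ i).eval n = ((A₀ : ℤ) * n + B₀) ^ 2 + c₀ i := by
  unfold qz
  simp

/-- few zeros modulo a prime above `z` -/
theorem nuQ_leZ {K A₀ B₀ : ℕ} {c₀ s : Fin K → ℕ} {p : ℕ} (hp : p.Prime)
    (hs : ∀ i, p ∣ A₀ → ¬ p ∣ B₀ ^ 2 + c₀ i + s i) : nuQ (qz A₀ B₀ c₀) s p ≤ 2 * K := by
  classical
  unfold nuQ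
  have hsub : ((range p).filter fun n : ℕ => ∃ i, (p : ℤ) ∣ (qz A₀ B₀ c₀ i).eval (n : ℤ) + s i) ⊆
      (univ : Finset (Fin K)).biUnion fun i => (range p).filter fun n : ℕ => (p : ℤ) ∣ (qz A₀ B₀ c₀ i).eval (n : ℤ) + s i := by
    intro n hn
    rw [mem_filter] at hn
    obtain ⟨h1, i, hi⟩ := hn
    rw [mem_biUnion]
    exact ⟨i, mem_univ i, mem_filter.2 ⟨h1, hi⟩⟩
  refine (card_le_card hsub).trans (card_biUnion_le.trans ?_)
  have hpZ : Prime (p : ℤ) := Nat.prime_iff_prime_int.1 hp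
  have h1 : ∀ i : Fin K, ((range p).filter fun n : ℕ => (p : ℤ) ∣ (qz A₀ B₀ c₀ i).eval (n : ℤ) + s i).card ≤ 2 := by
    intro i
    by_cases hA : p ∣ A₀
    · have h0 : ((range p).filter fun n : ℕ => (p : ℤ) ∣ (qz A₀ B₀ c₀ i).eval (n : ℤ) + s i) = ∅ := by
        rw [filter_eq_empty_iff]
        intro n _ hn
        rw [eval_qz] at hn
        apply hs i hA
        have hA' : (p : ℤ) ∣ A₀ := Int.natCast_dvd_natCast.2 hA
        have e : ((A₀ : ℤ) * n + B₀) ^ 2 + c₀ i + s i = (A₀ : ℤ) * (n * (A₀ * n + 2 * B₀)) + ((B₀ ^ 2 + c₀ i + s i : ℕ) : ℤ) := by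
          push_cast
          ring
        rw [e] at hn
        have := (Int.dvd_add_right (hA'.mul_right _)).1 hn
        exact_mod_cast this
      rw [h0, card_empty]
      omega
    · have hA' : ¬ (p : ℤ) ∣ A₀ := fun h => hA (Int.natCast_dvd_natCast.1 h)
      have hsmall : ∀ a b : ℕ, a < p → b < p → (p : ℤ) ∣ (a : ℤ) - b → a = b := by
        intro a b ha hb h
        have h2 : ((a : ℤ) - b).natAbs < p := by omega
        have h3 := Int.natCast_dvd.1 h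
        have h4 := Nat.eq_zero_of_dvd_of_lt h3 h2
        omega
      by_contra hcon
      rw [not_le, two_lt_card] at hcon
      obtain ⟨a, ha, b, hb, d, hd, hab, had, hbd⟩ := hcon
      rw [mem_filter, mem_range, eval_qz] at ha hb hd
      have key : ∀ x y : ℕ, x < p → y < p → x ≠ y → (p : ℤ) ∣ ((A₀ : ℤ) * x + B₀) ^ 2 + c₀ i + s i →
          (p : ℤ) ∣ ((A₀ : ℤ) * y + B₀) ^ 2 + c₀ i + s i → (p : ℤ) ∣ (A₀ : ℤ) * (x + y) + 2 * B₀ := by
        intro x y hx hy hxy h1 h2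
        have h3 := dvd_sub h1 h2
        have e2 : ((A₀ : ℤ) * x + B₀) ^ 2 + c₀ i + s i - (((A₀ : ℤ) * y + B₀) ^ 2 + c₀ i + s i) =
            (A₀ : ℤ) * ((x - y) * ((A₀ : ℤ) * (x + y) + 2 * B₀)) := by ring
        rw [e2] at h3
        rcases hpZ.dvd_or_dvd h3 with h | h
        · exact absurd h hA'
        · rcases hpZ.dvd_or_dvd h with h | h
          · exact absurd (hsmall x y hx hy h) hxy
          · exact h
      have k1 := key a b ha.1 hb.1 hab ha.2 hb.2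
      have k2 := key a d ha.1 hd.1 had ha.2 hd.2
      have k3 := dvd_sub k1 k2
      have e2 : (A₀ : ℤ) * (a + b) + 2 * B₀ - ((A₀ : ℤ) * (a + d) + 2 * B₀) = (A₀ : ℤ) * ((b : ℤ) - d) := by ring
      rw [e2] at k3
      rcases hpZ.dvd_or_dvd k3 with h | h
      · exact hA' h
      · exact hbd (hsmall b d hb.1 hd.1 h)
  calc ∑ i : Fin K, ((range p).filter fun n : ℕ => (p : ℤ) ∣ (qz A₀ B₀ c₀ i).eval (n : ℤ) + s i).card ≤ ∑ _i : Fin K, 2 := sum_le_sum fun i _ => h1 i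
    _ = 2 * K := by simp [mul_comm]

/-- good constants with admissible classes are admissible -/
theorem cls_admZ {K z A₀ B₀ : ℕ} {c₀ s : Fin K → ℕ} (hK : 2 * K ≤ z) (hb : ¬ BadZ z A₀ B₀ c₀ s)
    (h : (GQ (qz A₀ B₀ c₀) (fun i => (s i : ZMod (PW z)))).Nonempty) : AdmQ (qz A₀ B₀ c₀) s := by
  classical
  rw [← Finset.card_pos, Pool.Agent.Q151.LQ.card_GQ, Pool.Agent.Q151.LQ.cG_PW] at h
  rw [Nat.pos_iff_ne_zero, Finset.prod_ne_zero_iff] at h
  intro p hp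
  by_cases hz : p ≤ z
  · have := h p (mem_filter.2 ⟨mem_Icc.2 ⟨hp.one_lt.le, hz⟩, hp⟩)
    omega
  · have h1 : nuQ (qz A₀ B₀ c₀) s p ≤ 2 * K := nuQ_leZ hp fun i hi hc => hb ⟨i, p, hp, not_le.1 hz, hi, hc⟩
    omega

open Classical in
/-- few constants are bad -/
theorem bad_cardZ {z Y X K A₀ B₀ : ℕ} {H c₀ : Fin K → ℕ} (hS : SysZ z Y X A₀ B₀ H (qz A₀ B₀ c₀)) (hX : 8 * (K + 1) * PW z ≤ X)
    (hA₀ : 1 ≤ A₀) (hω : ∀ i, 16 * (K + 1) * PW z * A₀.primeFactors.card ≤ H i) (b : Fin K → ZMod (PW z)) :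
    (((SbQ H b).filter (BadZ z A₀ B₀ c₀)).card : ℝ) ≤ (2 * GA z K A₀ + 1 / 8) * (SbQ H b).card := by
  have hW : 0 < PW z := Nat.pos_of_ne_zero (NeZero.ne (PW z))
  have hWr : (0 : ℝ) < PW z := by exact_mod_cast hW
  set δ : Fin K → ℝ := fun i => ∑ p ∈ A₀.primeFactors.filter (fun p => z < p), (2 / (p : ℝ)) + 1 / (8 * ((K : ℝ) + 1)) with hδ
  have e : ∑ i, δ i ≤ 2 * GA z K A₀ + 1 / 8 := by
    have e1 : ∑ i, δ i = 2 * GA z K A₀ + K * (1 / (8 * ((K : ℝ) + 1))) := by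
      unfold GA
      rw [hδ, sum_const, card_univ, Fintype.card_fin, nsmul_eq_mul, mul_add]
      congr 1
      rw [mul_left_comm]
      congr 1
      rw [mul_sum]
      refine sum_congr rfl fun p _ => ?_
      ring
    rw [e1]
    have hK0 : (0 : ℝ) ≤ K := Nat.cast_nonneg K
    have : (K : ℝ) * (1 / (8 * ((K : ℝ) + 1))) ≤ 1 / 8 := by
      rw [mul_one_div, div_le_div_iff₀ (by positivity) (by norm_num)]
      linarith
    linarith
  refine le_trans ?_ (mul_le_mul_of_nonneg_right e (Nat.cast_nonneg _))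
  have key := card_bad' (fun i => cls (H i) (b i)) (fun i => (cls (H i) (b i)).filter fun s => ∃ p : ℕ, p.Prime ∧ z < p ∧ p ∣ A₀ ∧ p ∣ B₀ ^ 2 + c₀ i + s) (δ := δ) ?_
  · refine le_trans ?_ key
    have : (SbQ H b).filter (BadZ z A₀ B₀ c₀) ⊆ (Fintype.piFinset fun i => cls (H i) (b i)).filter fun t => ∃ i, t i ∈ (cls (H i) (b i)).filter fun s => ∃ p : ℕ, p.Prime ∧ z < p ∧ p ∣ A₀ ∧ p ∣ B₀ ^ 2 + c₀ i + s := by
      intro s hs
      rw [mem_filter] at hs ⊢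
      obtain ⟨h1, i, p, hp⟩ := hs
      have h1' := h1
      unfold SbQ at h1'
      rw [Fintype.mem_piFinset] at h1'
      exact ⟨h1, i, mem_filter.2 ⟨h1' i, p, hp⟩⟩
    exact_mod_cast card_le_card this
  · intro i
    have hHW : 2 * (PW z : ℝ) ≤ H i := by
      have h1 := (hS.scale i).1
      have h2 : 2 * PW z ≤ 8 * (K + 1) * PW z := Nat.mul_le_mul_right _ (by omega)
      have : 2 * PW z ≤ H i := by omega
      exact_mod_cast this
    have hcl := Pool.Agent.Q58.SZ.le_card_cls (H i) (b i)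
    have hcl2 : (H i : ℝ) / PW z / 2 ≤ ((cls (H i) (b i)).card : ℝ) := by
      have : 2 ≤ (H i : ℝ) / PW z := by
        rw [le_div_iff₀ hWr]
        exact hHW
      linarith
    have hsub : ((cls (H i) (b i)).filter fun s => ∃ p : ℕ, p.Prime ∧ z < p ∧ p ∣ A₀ ∧ p ∣ B₀ ^ 2 + c₀ i + s) ⊆
        (A₀.primeFactors.filter (fun p => z < p)).biUnion fun p => (cls (H i) (b i)).filter fun s => s ≡ ((-(B₀ ^ 2 + c₀ i : ℤ)) % p).toNat [MOD p] := by
      intro s hs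
      rw [mem_filter] at hs
      obtain ⟨h1, p, hp, hz, hd, hc⟩ := hs
      rw [mem_biUnion]
      refine ⟨p, mem_filter.2 ⟨Nat.mem_primeFactors.2 ⟨hp, hd, by omega⟩, hz⟩, mem_filter.2 ⟨h1, ?_⟩⟩
      rw [← Int.natCast_modEq_iff]
      have hp0 : (0 : ℤ) < p := by exact_mod_cast hp.pos
      rw [Int.toNat_of_nonneg (Int.emod_nonneg _ hp0.ne')]
      refine Int.ModEq.symm ((Int.mod_modEq _ _).trans ?_)
      rw [Int.modEq_iff_dvd]
      have e3 : (s : ℤ) - -(B₀ ^ 2 + c₀ i : ℤ) = ((B₀ ^ 2 + c₀ i + s : ℕ) : ℤ) := by push_cast; ring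
      rw [e3]
      exact_mod_cast hc
    have h2 := (card_le_card hsub).trans card_biUnion_le
    have h3 : ((((cls (H i) (b i)).filter fun s => ∃ p : ℕ, p.Prime ∧ z < p ∧ p ∣ A₀ ∧ p ∣ B₀ ^ 2 + c₀ i + s).card : ℕ) : ℝ) ≤
        ∑ p ∈ A₀.primeFactors.filter (fun p => z < p), (((cls (H i) (b i)).filter fun s => s ≡ ((-(B₀ ^ 2 + c₀ i : ℤ)) % p).toNat [MOD p]).card : ℝ) := by
      exact_mod_cast h2
    refine h3.trans ?_
    have h4 : ∀ p ∈ A₀.primeFactors.filter (fun p => z < p), (((cls (H i) (b i)).filter fun s => s ≡ ((-(B₀ ^ 2 + c₀ i : ℤ)) % p).toNat [MOD p]).card : ℝ) ≤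
        (2 / (p : ℝ)) * ((cls (H i) (b i)).card : ℝ) + 1 := by
      intro p hp
      rw [mem_filter, Nat.mem_primeFactors] at hp
      obtain ⟨⟨hpp, hpd, _⟩, hzp⟩ := hp
      have hp0 : (0 : ℝ) < p := by exact_mod_cast hpp.pos
      have h4 := (abs_le.1 (Pool.Agent.Q261.SZ.cnt_cls (H i) p ((-(B₀ ^ 2 + c₀ i : ℤ)) % p).toNat hpp.pos (Pool.Agent.Q261.SZ.coprime_PW hpp hzp) (b i))).2
      have h5 : (H i : ℝ) / PW z / p ≤ (2 / (p : ℝ)) * ((cls (H i) (b i)).card : ℝ) := by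
        calc (H i : ℝ) / PW z / p = (2 / (p : ℝ)) * ((H i : ℝ) / PW z / 2) := by ring
          _ ≤ _ := by gcongr
      linarith
    refine (sum_le_sum h4).trans ?_
    rw [hδ, sum_add_distrib, sum_const, nsmul_eq_mul, mul_one, ← sum_mul, add_mul]
    refine add_le_add le_rfl ?_
    have h6 : ((A₀.primeFactors.filter fun p => z < p).card : ℝ) ≤ (A₀.primeFactors.card : ℝ) := by
      exact_mod_cast card_filter_le _ _
    refine h6.trans ?_
    have h7 : 16 * ((K : ℝ) + 1) * PW z * (A₀.primeFactors.card : ℝ) ≤ H i := by exact_mod_cast hω i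
    have h8 : 8 * ((K : ℝ) + 1) * (A₀.primeFactors.card : ℝ) ≤ (H i : ℝ) / PW z / 2 := by
      rw [div_div, le_div_iff₀ (by positivity)]
      linarith
    rw [one_div, inv_mul_eq_div, le_div_iff₀ (by positivity)]
    linarith

open Pool.Agent.Q58.SZ (card_cls_le le_card_cls)
open Pool.Agent.Q210.LQ (card_SbQ mem_SbQ ratio_prod)

open Classical in
/-- many tuples are admissible -/
theorem le_ATZ {z Y X K A₀ B₀ : ℕ} {H c₀ : Fin K → ℕ} (hK : 2 * K ≤ z) (hs : SysZ z Y X A₀ B₀ H (qz A₀ B₀ c₀)) (hX : 8 * (K + 1) * PW z ≤ X)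
    (hA₀ : 1 ≤ A₀) (hω : ∀ i, 16 * (K + 1) * PW z * A₀.primeFactors.card ≤ H i) (hG : GA z K A₀ ≤ 1 / 8) : (1 / 2) * ∑ b ∈ AdQ (PW z) (qz A₀ B₀ c₀), ((SbQ H b).card : ℝ) ≤ ((ATQ H (qz A₀ B₀ c₀)).card : ℝ) := by
  have h1 : (∑ b ∈ AdQ (PW z) (qz A₀ B₀ c₀), (((SbQ H b).filter fun s => ¬ BadZ z A₀ B₀ c₀ s).card : ℝ)) ≤ ((ATQ H (qz A₀ B₀ c₀)).card : ℝ) := by
    rw [← Nat.cast_sum, ← Finset.card_biUnion]
    · have : ((AdQ (PW z) (qz A₀ B₀ c₀)).biUnion fun b => (SbQ H b).filter fun s => ¬ BadZ z A₀ B₀ c₀ s) ⊆ ATQ H (qz A₀ B₀ c₀) := by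
        intro s
        simp only [Finset.mem_filter, Finset.mem_biUnion, ATQ, Fintype.mem_piFinset,
          AdQ, Finset.mem_univ, true_and, mem_SbQ]
        rintro ⟨b, hb, ⟨h1, rfl⟩, h3⟩
        exact ⟨h1, cls_admZ hK h3 hb⟩
      exact_mod_cast card_le_card this
    · intro b _ b' _ hbb'
      rw [Function.onFun, Finset.disjoint_left]
      intro s hs hs'
      rw [Finset.mem_filter, mem_SbQ] at hs hs'
      exact hbb' (hs.1.2.symm.trans hs'.1.2)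
  refine le_trans ?_ h1
  rw [mul_sum]
  refine sum_le_sum fun b _ => ?_
  have h2 := bad_cardZ hs hX hA₀ hω b
  have h3 : (((SbQ H b).filter (BadZ z A₀ B₀ c₀)).card : ℝ) + (((SbQ H b).filter fun s => ¬ BadZ z A₀ B₀ c₀ s).card : ℝ) = ((SbQ H b).card : ℝ) := by
    exact_mod_cast Finset.card_filter_add_card_filter_not (s := SbQ H b) (BadZ z A₀ B₀ c₀)
  have h4 : (2 * GA z K A₀ + 1 / 8) * ((SbQ H b).card : ℝ) ≤ 1 / 2 * ((SbQ H b).card : ℝ) := by
    apply mul_le_mul_of_nonneg_right _ (Nat.cast_nonneg _)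
    linarith
  linarith

open Classical in
/-- from the classes to all admissible constants -/
theorem transZ {z Yn X K A₀ B₀ : ℕ} {H c₀ : Fin K → ℕ} {E : (Fin K → ℕ) → Prop} {η : ℝ} (hK : 2 * K ≤ z)
    (hs : SysZ z Yn X A₀ B₀ H (qz A₀ B₀ c₀)) (hX : 8 * (K + 1) * PW z ≤ X) (hA₀ : 1 ≤ A₀) (hω : ∀ i, 16 * (K + 1) * PW z * A₀.primeFactors.card ≤ H i) (hG : GA z K A₀ ≤ 1 / 8)
    (h : ∑ b ∈ AdQ (PW z) (qz A₀ B₀ c₀), (((SbQ H b).filter fun s => E s).card : ℝ) / (SbQ H b).card ≤ η * (AdQ (PW z) (qz A₀ B₀ c₀)).card) :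
    (((ATQ H (qz A₀ B₀ c₀)).filter fun s => E s).card : ℝ) ≤ 4 * η * (ATQ H (qz A₀ B₀ c₀)).card := by
  have hW : (0 : ℝ) < PW z := by exact_mod_cast Nat.pos_of_ne_zero (NeZero.ne (PW z))
  set Y : ℝ := (X : ℝ) / PW z with hYdef
  have hY : 8 * ((K : ℝ) + 1) ≤ Y := by
    rw [hYdef, le_div_iff₀ hW]
    exact_mod_cast hX
  have hK0 : (0 : ℝ) ≤ K := Nat.cast_nonneg K
  set y : Fin K → ℝ := fun i => (H i : ℝ) / PW z with hy
  have hyY : ∀ i, Y ≤ y i := by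
    intro i
    rw [hYdef, hy]
    apply div_le_div_of_nonneg_right _ hW.le
    exact_mod_cast (hs.scale i).1
  have hratio := ratio_prod hY hyY
  set B : ℝ := ∏ i, (y i + 1) with hB
  set A : ℝ := ∏ i, (y i - 1) with hA
  have hA0 : 0 < A := Finset.prod_pos fun i _ => by linarith [hyY i]
  have hB0 : 0 < B := Finset.prod_pos fun i _ => by linarith [hyY i]
  have hSle : ∀ b : Fin K → ZMod (PW z), ((SbQ H b).card : ℝ) ≤ B := by
    intro b
    rw [card_SbQ]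
    exact Finset.prod_le_prod (fun _ _ => Nat.cast_nonneg _) fun i _ => card_cls_le (H i) (b i)
  have hSge : ∀ b : Fin K → ZMod (PW z), A ≤ ((SbQ H b).card : ℝ) := by
    intro b
    rw [card_SbQ]
    exact Finset.prod_le_prod (fun i _ => by linarith [hyY i]) fun i _ => le_card_cls (H i) (b i)
  have h0 : 0 ≤ η * (AdQ (PW z) (qz A₀ B₀ c₀)).card :=
    le_trans (Finset.sum_nonneg fun b _ => by positivity) h
  have h1 : (((ATQ H (qz A₀ B₀ c₀)).filter fun s => E s).card : ℝ) ≤ B * (η * (AdQ (PW z) (qz A₀ B₀ c₀)).card) := by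
    refine (sum_ATL (z := z) E).trans ?_
    refine le_trans ?_ (mul_le_mul_of_nonneg_left h hB0.le)
    rw [Finset.mul_sum]
    refine Finset.sum_le_sum fun b _ => ?_
    have hSpos : (0 : ℝ) < (SbQ H b).card := lt_of_lt_of_le hA0 (hSge b)
    rw [mul_div_assoc', le_div_iff₀ hSpos, mul_comm]
    exact mul_le_mul_of_nonneg_right (hSle b) (Nat.cast_nonneg _)
  have h2 : A * (AdQ (PW z) (qz A₀ B₀ c₀)).card ≤ 2 * ((ATQ H (qz A₀ B₀ c₀)).card : ℝ) := by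
    have e1 := le_ATZ hK hs hX hA₀ hω hG
    have e2 : A * (AdQ (PW z) (qz A₀ B₀ c₀)).card ≤ ∑ b ∈ AdQ (PW z) (qz A₀ B₀ c₀), ((SbQ H b).card : ℝ) := by
      calc A * (AdQ (PW z) (qz A₀ B₀ c₀)).card = ∑ _b ∈ AdQ (PW z) (qz A₀ B₀ c₀), A := by
            rw [Finset.sum_const, nsmul_eq_mul, mul_comm]
        _ ≤ ∑ b ∈ AdQ (PW z) (qz A₀ B₀ c₀), ((SbQ H b).card : ℝ) :=
          Finset.sum_le_sum fun b _ => hSge b
    linarith
  by_cases hη : 0 ≤ η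
  · calc (((ATQ H (qz A₀ B₀ c₀)).filter fun s => E s).card : ℝ)
        ≤ B * (η * (AdQ (PW z) (qz A₀ B₀ c₀)).card) := h1
      _ ≤ 2 * A * (η * (AdQ (PW z) (qz A₀ B₀ c₀)).card) := mul_le_mul_of_nonneg_right hratio h0
      _ = 2 * η * (A * (AdQ (PW z) (qz A₀ B₀ c₀)).card) := by ring
      _ ≤ 2 * η * (2 * (ATQ H (qz A₀ B₀ c₀)).card) := mul_le_mul_of_nonneg_left h2 (by linarith)
      _ = _ := by ring
  · push Not at hη
    have hAd : ((AdQ (PW z) (qz A₀ B₀ c₀)).card : ℝ) = 0 := by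
      have h3 : (0 : ℝ) ≤ (AdQ (PW z) (qz A₀ B₀ c₀)).card := Nat.cast_nonneg _
      nlinarith
    have hAT : ((ATQ H (qz A₀ B₀ c₀)).card : ℝ) = 0 := by
      have e1 := sum_ATL (z := z) (H := H) (q := qz A₀ B₀ c₀) (fun _ => True)
      simp only [Finset.filter_true] at e1
      have : AdQ (PW z) (qz A₀ B₀ c₀) = ∅ := by
        rw [← Finset.card_eq_zero]
        exact_mod_cast hAd
      rw [this, Finset.sum_empty] at e1
      exact le_antisymm e1 (Nat.cast_nonneg _)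
    rw [hAT, mul_zero]
    have h4 : (((ATQ H (qz A₀ B₀ c₀)).filter fun s => E s).card : ℝ) ≤ (ATQ H (qz A₀ B₀ c₀)).card := by
      exact_mod_cast Finset.card_filter_le _ _
    linarith

/-- JOB TRZ of project LZ -/
theorem trz : S_TRZ := by
  intro z Y X K A B H q E η hK hS hX hω hG h
  obtain ⟨c, rfl⟩ := hS.form
  exact transZ hK hS hX hS.pos hω hG h

end Pool.Agent.Q68.LZ
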